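import Pool.Agent.H59.PG.Stmts

/-!
# Parity games: positional determinacy of abstract games
-/

set_option autoImplicit false

namespace Pool.PG

open Filter

namespace DTA63

theorem wonP_shift {i : Bool} {q : ℕ → ℕ} (k : ℕ) (h : WonP i (fun n => q (n + k))) :
    WonP i q := by
  obtain ⟨p, h1, h2, h3⟩ := h
  refine ⟨p, ?_, ?_, h3⟩
  · rw [frequently_atTop] at h1 ⊢
    intro a
    obtain ⟨b, hb, hb'⟩ := h1 a
    exact ⟨b + k, by omega, hb'⟩
  · rw [eventually_atTop] at h2 ⊢
    obtain ⟨a, ha⟩ := h2
    refine ⟨a + k, fun b hb => ?_⟩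
    have h4 := ha (b - k) (by omega)
    have e : b - k + k = b := by omega
    simpa [e] using h4

/-- The rank decreases. -/
theorem reach {V : Type} {own : V → Bool} {E : V → V → Prop} {i : Bool} {S U A : Finset V}
    {α : V → V} {ρ : V → ℕ}
    (a2 : ∀ v ∈ A, v ∉ U → own v = i → α v ∈ A ∧ E v (α v) ∧ ρ (α v) < ρ v)
    (a3 : ∀ v ∈ A, v ∉ U → own v ≠ i → ∀ w ∈ S, E v w → w ∈ A ∧ ρ w < ρ v)
    (x : ℕ → V) (hx : ∀ n, x n ∈ S ∧ E (x n) (x (n + 1)))
    (hf : ∀ n, x n ∈ A → x n ∉ U → own (x n) = i → x (n + 1) = α (x n)) :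
    ∀ (r n : ℕ), x n ∈ A → ρ (x n) ≤ r → ∃ m, n ≤ m ∧ x m ∈ U := by
  have step : ∀ n, x n ∈ A → x n ∉ U → x (n + 1) ∈ A ∧ ρ (x (n + 1)) < ρ (x n) := by
    intro n hn hU
    by_cases ho : own (x n) = i
    · have h1 := a2 _ hn hU ho
      rw [hf n hn hU ho]
      exact ⟨h1.1, h1.2.2⟩
    · exact a3 _ hn hU ho _ (hx (n + 1)).1 (hx n).2
  intro r
  induction r with
  | zero =>
    intro n hn hr
    by_cases hU : x n ∈ U
    · exact ⟨n, le_rfl, hU⟩
    · have h1 := (step n hn hU).2
      omega
  | succ r ih =>
    intro n hn hr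
    by_cases hU : x n ∈ U
    · exact ⟨n, le_rfl, hU⟩
    · obtain ⟨h1, h2⟩ := step n hn hU
      obtain ⟨m, hm, hm'⟩ := ih (n + 1) h1 (by omega)
      exact ⟨m, by omega, hm'⟩

end DTA63

open Classical in
theorem dta_row (hATR : ATRStmt) : DTAStmt := by
  intro V own pri E S
  induction S using Finset.strongInduction with
  | H S ih =>
  intro htot
  rcases S.eq_empty_or_nonempty with hS | hne
  · subst hS
    refine ⟨fun _ => true, fun v => v, ?_, ?_, ?_, ?_⟩
    · intro v hv; simp at hv
    · intro v hv; simp at hv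
    · intro v hv; simp at hv
    · intro v hv; simp at hv
  -- some successor
  obtain ⟨s, hs⟩ : ∃ s : V → V, ∀ v ∈ S, s v ∈ S ∧ E v (s v) := by
    refine ⟨fun v => if hv : v ∈ S then (htot v hv).choose else v, fun v hv => ?_⟩
    simp only [hv, dif_pos]
    exact (htot v hv).choose_spec
  -- the smallest priority
  obtain ⟨u0, hu0, hmin⟩ := Finset.exists_min_image S pri hne
  obtain ⟨i, hi⟩ : ∃ i : Bool, (Even (pri u0) ↔ i = true) := by
    by_cases h : Even (pri u0)
    · exact ⟨true, by simp [h]⟩
    · exact ⟨false, by simp [h]⟩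
  have hnot : ∀ b : Bool, b ≠ i ↔ b = !i := by
    intro b; cases b <;> cases i <;> simp
  have hnot' : ∀ b : Bool, b ≠ (!i) ↔ b = i := by
    intro b; cases b <;> cases i <;> simp
  -- the attractor
  have hUS : (S.filter fun v => pri v = pri u0) ⊆ S := Finset.filter_subset _ _
  obtain ⟨A, α, ρ, hUA, hAS, a2, a3, a4, a5⟩ :=
    hATR V own E i S (S.filter fun v => pri v = pri u0) hUS htot
  have hu0A : u0 ∈ A := hUA (by simp [hu0])
  have hS'sub : S \ A ⊂ S := Finset.sdiff_ssubset hAS ⟨u0, hu0A⟩
  have hS'mem : ∀ v, v ∈ S \ A ↔ v ∈ S ∧ v ∉ A := by intro v; simp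
  obtain ⟨W', σ', hsol'⟩ := ih (S \ A) hS'sub (by
    intro v hv
    rw [hS'mem] at hv
    by_cases ho : own v = i
    · obtain ⟨w, hw, hE⟩ := htot v hv.1
      exact ⟨w, (hS'mem w).2 ⟨hw, a4 v hv.1 hv.2 ho w hw hE⟩, hE⟩
    · obtain ⟨w, hw, hwA, hE⟩ := a5 v hv.1 hv.2 ho
      exact ⟨w, (hS'mem w).2 ⟨hw, hwA⟩, hE⟩)
  by_cases hcase : ∀ v ∈ S \ A, W' v = i
  · -- Case 1
    refine ⟨fun _ => i, fun v => if v ∈ A then
      (if v ∉ (S.filter fun v => pri v = pri u0) ∧ own v = i then α v else s v) else σ' v,
      ?_, ?_, ?_, ?_⟩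
    · intro v hv
      by_cases hvA : v ∈ A
      · simp only [hvA, if_true]
        by_cases hc : v ∉ (S.filter fun v => pri v = pri u0) ∧ own v = i
        · rw [if_pos hc]
          have h1 := a2 v hvA hc.1 hc.2
          exact ⟨hAS h1.1, h1.2.1⟩
        · rw [if_neg hc]
          exact hs v hv
      · simp only [hvA, if_false]
        have h1 := hsol'.mem v ((hS'mem v).2 ⟨hv, hvA⟩)
        exact ⟨((hS'mem _).1 h1.1).1, h1.2⟩
    · intro v hv _; rfl
    · intro v hv _ w hw _; rfl
    · intro v hv x hx0 hx hfol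
      by_cases hfr : ∀ N, ∃ n, N ≤ n ∧ x n ∈ A
      · refine ⟨pri u0, ?_, ?_, hi⟩
        · rw [frequently_atTop]
          intro N
          obtain ⟨n, hn, hnA⟩ := hfr N
          obtain ⟨m, hm, hmU⟩ := DTA63.reach a2 a3 x hx (by
            intro k hk hkU hko
            have h1 := hfol k hko
            simp only [hk, if_true] at h1
            rw [if_pos ⟨hkU, hko⟩] at h1
            exact h1) (ρ (x n)) n hnA le_rfl
          exact ⟨m, by omega, (Finset.mem_filter.1 hmU).2⟩
        · exact Eventually.of_forall fun n => hmin _ (hx n).1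
      · push Not at hfr
        obtain ⟨N, hN⟩ := hfr
        apply DTA63.wonP_shift N
        have hN0 : x N ∈ S \ A := (hS'mem _).2 ⟨(hx N).1, hN N le_rfl⟩
        have h1 := hsol'.won (x N) hN0 (fun n => x (n + N)) (by simp) (by
          intro n
          refine ⟨(hS'mem _).2 ⟨(hx _).1, hN _ (by omega)⟩, ?_⟩
          have h2 := (hx (n + N)).2
          have e : n + N + 1 = n + 1 + N := by omega
          rw [e] at h2
          exact h2) (by
          intro n hn
          rw [hcase _ hN0] at hn
          have h2 := hfol (n + N) hn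
          have h3 : x (n + N) ∉ A := hN _ (by omega)
          simp only [h3, if_false] at h2
          have e : n + N + 1 = n + 1 + N := by omega
          rw [e] at h2
          exact h2)
        rw [hcase _ hN0] at h1
        exact h1
  · -- Case 2
    have hXS : ((S \ A).filter fun v => W' v = !i) ⊆ S :=
      (Finset.filter_subset _ _).trans Finset.sdiff_subset
    obtain ⟨B, β, τ, hXB, hBS, b2, b3, b4, b5⟩ :=
      hATR V own E (!i) S ((S \ A).filter fun v => W' v = !i) hXS htot
    have hXmem : ∀ v, v ∈ ((S \ A).filter fun v => W' v = !i) ↔ (v ∈ S ∧ v ∉ A) ∧ W' v = !i := by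
      intro v; simp
    generalize ((S \ A).filter fun v => W' v = !i) = X at *
    have hXne : X.Nonempty := by
      push Not at hcase
      obtain ⟨v, hv, hv'⟩ := hcase
      exact ⟨v, (hXmem v).2 ⟨(hS'mem v).1 hv, (hnot _).1 hv'⟩⟩
    have hS''sub : S \ B ⊂ S := Finset.sdiff_ssubset hBS (hXne.mono hXB)
    have hS''mem : ∀ v, v ∈ S \ B ↔ v ∈ S ∧ v ∉ B := by intro v; simp
    obtain ⟨W'', σ'', hsol''⟩ := ih (S \ B) hS''sub (by
      intro v hv
      rw [hS''mem] at hv
      by_cases ho : own v = !i
      · obtain ⟨w, hw, hE⟩ := htot v hv.1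
        exact ⟨w, (hS''mem w).2 ⟨hw, b4 v hv.1 hv.2 ho w hw hE⟩, hE⟩
      · obtain ⟨w, hw, hwA, hE⟩ := b5 v hv.1 hv.2 ho
        exact ⟨w, (hS''mem w).2 ⟨hw, hwA⟩, hE⟩)
    -- vertices of X
    have hX1 : ∀ v ∈ X, own v = (!i) → σ' v ∈ X := by
      intro v hv ho
      have h1 := (hXmem v).1 hv
      have h2 := hsol'.mem v ((hS'mem v).2 h1.1)
      have h3 := hsol'.stay v ((hS'mem v).2 h1.1) (by rw [ho, h1.2])
      exact (hXmem _).2 ⟨(hS'mem _).1 h2.1, by rw [h3, h1.2]⟩
    have hX2 : ∀ v ∈ X, own v ≠ (!i) → ∀ w ∈ S, E v w → w ∈ X := by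
      intro v hv ho w hw hE
      have h1 := (hXmem v).1 hv
      have ho' : own v = i := (hnot' _).1 ho
      have h2 := a4 v h1.1.1 h1.1.2 ho' w hw hE
      have h3 := hsol'.trap v ((hS'mem v).2 h1.1) (by rw [h1.2]; exact ho) w
        ((hS'mem w).2 ⟨hw, h2⟩) hE
      exact (hXmem _).2 ⟨⟨hw, h2⟩, by rw [h3, h1.2]⟩
    refine ⟨fun v => if v ∈ B then !i else W'' v, fun v => if v ∈ B then
      (if v ∈ X then σ' v else if own v = !i then β v else s v) else σ'' v, ?_, ?_, ?_, ?_⟩
    · intro v hv
      by_cases hvB : v ∈ B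
      · simp only [hvB, if_true]
        by_cases hvX : v ∈ X
        · rw [if_pos hvX]
          have h1 := (hXmem v).1 hvX
          have h2 := hsol'.mem v ((hS'mem v).2 h1.1)
          exact ⟨((hS'mem _).1 h2.1).1, h2.2⟩
        · rw [if_neg hvX]
          by_cases ho : own v = !i
          · rw [if_pos ho]
            have h1 := b2 v hvB hvX ho
            exact ⟨hBS h1.1, h1.2.1⟩
          · rw [if_neg ho]
            exact hs v hv
      · simp only [hvB, if_false]
        have h1 := hsol''.mem v ((hS''mem v).2 ⟨hv, hvB⟩)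
        exact ⟨((hS''mem _).1 h1.1).1, h1.2⟩
    · intro v hv ho
      by_cases hvB : v ∈ B
      · simp only [hvB, if_true] at ho ⊢
        by_cases hvX : v ∈ X
        · rw [if_pos hvX, if_pos (hXB (hX1 v hvX ho))]
        · rw [if_neg hvX, if_pos ho, if_pos (b2 v hvB hvX ho).1]
      · simp only [hvB, if_false] at ho ⊢
        have h0 := (hS''mem v).2 ⟨hv, hvB⟩
        have h1 := (hS''mem _).1 (hsol''.mem v h0).1
        rw [if_neg h1.2]
        exact hsol''.stay v h0 ho
    · intro v hv ho w hw hE
      by_cases hvB : v ∈ B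
      · simp only [hvB, if_true] at ho ⊢
        by_cases hvX : v ∈ X
        · rw [if_pos (hXB (hX2 v hvX ho w hw hE))]
        · rw [if_pos (b3 v hvB hvX ho w hw hE).1]
      · simp only [hvB, if_false] at ho ⊢
        have h0 := (hS''mem v).2 ⟨hv, hvB⟩
        by_cases hwB : w ∈ B
        · rw [if_pos hwB]
          by_contra hc
          have h1 : W'' v = i := by
            rw [← hnot']
            exact fun h => hc h.symm
          have h2 : own v = !i := by
            rw [← hnot]
            rw [h1] at ho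
            exact ho
          exact b4 v hv hvB h2 w hw hE hwB
        · rw [if_neg hwB]
          exact hsol''.trap v h0 ho w ((hS''mem w).2 ⟨hw, hwB⟩) hE
    · intro v hv x hx0 hx hfol
      -- plays outside B
      have houtB : v ∉ B → (∀ n, x n ∉ B) → WonP (W'' v) (fun n => pri (x n)) := by
        intro hvB hall
        simp only [hvB, if_false] at hfol
        refine hsol''.won v ((hS''mem v).2 ⟨hv, hvB⟩) x hx0 (fun n => ⟨(hS''mem _).2
          ⟨(hx n).1, hall n⟩, (hx n).2⟩) (fun n hn => ?_)
        have h1 := hfol n hn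
        rw [if_neg (hall n)] at h1
        exact h1
      by_cases hW : (if v ∈ B then !i else W'' v) = !i
      · simp only [hW] at hfol ⊢
        by_cases hall : ∀ n, x n ∉ B
        · have hvB : v ∉ B := by rw [← hx0]; exact hall 0
          have h1 : W'' v = !i := by rw [if_neg hvB] at hW; exact hW
          have h2 := houtB hvB hall
          rw [h1] at h2
          exact h2
        · push Not at hall
          obtain ⟨n0, hn0⟩ := hall
          obtain ⟨m, hm, hmX⟩ := DTA63.reach b2 b3 x hx (by
            intro k hk hkX hko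
            have h1 := hfol k hko
            rw [if_pos hk, if_neg hkX, if_pos hko] at h1
            exact h1) (τ (x n0)) n0 hn0 le_rfl
          have hstay : ∀ n, x (n + m) ∈ X := by
            intro n
            induction n with
            | zero => simpa using hmX
            | succ n ihn =>
              have e : n + 1 + m = n + m + 1 := by omega
              rw [e]
              by_cases ho : own (x (n + m)) = !i
              · have h1 := hfol (n + m) ho
                rw [if_pos (hXB ihn), if_pos ihn] at h1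
                rw [h1]
                exact hX1 _ ihn ho
              · exact hX2 _ ihn ho _ (hx _).1 (hx _).2
          apply DTA63.wonP_shift m
          have h0 := (hXmem _).1 hmX
          have h1 := hsol'.won (x m) ((hS'mem _).2 h0.1) (fun n => x (n + m)) (by simp) (by
            intro n
            refine ⟨(hS'mem _).2 ((hXmem _).1 (hstay n)).1, ?_⟩
            have h2 := (hx (n + m)).2
            have e : n + m + 1 = n + 1 + m := by omega
            rw [e] at h2
            exact h2) (by
            intro n hn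
            rw [h0.2] at hn
            have h2 := hfol (n + m) hn
            rw [if_pos (hXB (hstay n)), if_pos (hstay n)] at h2
            have e : n + m + 1 = n + 1 + m := by omega
            rw [e] at h2
            exact h2)
          rw [h0.2] at h1
          exact h1
      · have hvB : v ∉ B := by
          intro h
          rw [if_pos h] at hW
          exact hW rfl
        have hWv : W'' v = i := by
          rw [if_neg hvB] at hW
          exact (hnot' _).1 hW
        simp only [hvB, if_false] at hfol ⊢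
        have hall : ∀ n, x n ∉ B ∧ W'' (x n) = i := by
          intro n
          induction n with
          | zero => rw [hx0]; exact ⟨hvB, hWv⟩
          | succ n ihn =>
            have h0 := (hS''mem _).2 ⟨(hx n).1, ihn.1⟩
            by_cases ho : own (x n) = i
            · have h1 := hfol n (by rw [ho, hWv])
              rw [if_neg ihn.1] at h1
              rw [h1]
              refine ⟨((hS''mem _).1 (hsol''.mem _ h0).1).2, ?_⟩
              rw [hsol''.stay _ h0 (by rw [ho, ihn.2]), ihn.2]
            · have h1 := b4 (x n) (hx n).1 ihn.1 ((hnot _).1 ho) (x (n + 1)) (hx _).1 (hx n).2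
              refine ⟨h1, ?_⟩
              rw [hsol''.trap _ h0 (by rw [ihn.2]; exact ho) _ ((hS''mem _).2 ⟨(hx _).1, h1⟩)
                (hx n).2, ihn.2]
        exact houtB hvB fun n => (hall n).1

end Pool.PG
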